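import Pool.Agent.Run7.h465.LV.Hard

/-!
# Single-vehicle scheduling on a line with release and handling times is NP-hard

A vehicle starts at the vertex `v_0` of a path, has to process one job at every vertex (a job has a
release time and a handling time), and returns to `v_0`. Is there an order of the jobs such that the
vehicle is back at time at most `K`? If all handling times are zero this is solvable in polynomial
time. We prove that the problem is NP-hard (numbers in binary) if the handling times are positive,
even if all travel times are positive and the same in both directions, and all vertices are on one
side of the start vertex up to vertices very close to it.

The reduction is from SUBSET SUM (numbers `a_1, ..., a_N` with sum `B + C`, target `B`). All numbers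
`H`, `L`, `a_i` have different orders of magnitude, `H ≫ L ≫ a_i`. There are `2 N + 2` big jobs with
handling time `H`, released at the times `0, H, 2 H, ..., (2 N + 1) H`: those with an even label
are at the start vertex, and those with an odd label are at the positions `N L, (N - 1) L, ..., L`
and, the last one, at `(N + 1) L`. So the vehicle has to alternate between the start and ever
closer far points, and the total travel time is at least `(N + 1) (N + 2) L`. Directly behind the
odd point at `(N - i) L` there is a small job at distance `a_i` from it, with handling time
`2 a_i`. If it is processed on the round trip to this point, the travel time increases by `2 a_i`;
if not, it can be processed on the way to the last point `(N + 1) L` without any detour. The last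
big job at the start vertex is released so late that the handling and travelling of the items chosen
early is free exactly up to the total `4 C`; the items chosen late cost `2 a_i` each after this
moment. So the completion time is at most `K` if and only if the items can be divided into parts
with the sums `C` and `B`.
-/

namespace Pool.Agent.Results.MP_6e49ee_lc.LineVehicleNPHard

open Pool.Agent.H38.NP Pool.Agent.Run7.h465.LV

/-- **The single-vehicle scheduling problem on a path with positive handling times is NP-hard**
(numbers in binary), even if all travel times are positive and symmetric. -/
theorem result :
    NPHard (lang fun I : Inst =>
      (IsInst I ∧ PosHand I ∧ PosTravel I ∧ Symmetric I) ∧ HasSchedule I) ∧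
    NPHardOn (fun I : Inst => IsInst I ∧ PosHand I ∧ PosTravel I ∧ Symmetric I) HasSchedule :=
  ⟨nph.npHard fun _ hI => ⟨fun h => ⟨hI, h⟩, fun h => h.2⟩, nph.npHardOn⟩

end Pool.Agent.Results.MP_6e49ee_lc.LineVehicleNPHard
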